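import Mathlib

/-!
# Self 2-distance graphs of odd degree

The 2-distance graph of `G` joins two vertices at distance exactly `2`.  The question asks whether a
regular graph of odd degree can be isomorphic to its 2-distance graph.  We construct, for every odd
`k ≥ 5`, a finite connected `k`-regular graph which is isomorphic to its 2-distance graph: a double
cover of the complete graph on `k + 1` points given by a two-graph isomorphic to its complement.
-/

set_option autoImplicit false

namespace Pool.Agent.Results.MP_325f40_co.OddSelfTwoDistance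

/-- The 2-distance graph: two vertices are adjacent when their distance (which is infinite between
different components) is exactly `2`. -/
def twoDist {V : Type} (G : SimpleGraph V) : SimpleGraph V where
  Adj u v := G.edist u v = 2
  symm := ⟨fun u v h => by rw [SimpleGraph.edist_comm]; exact h⟩
  loopless := ⟨fun u h => by simp at h⟩

/-- The double cover of the complete graph on `X` given by a symmetric function. -/
def cover {X : Type} (F : X → X → Bool) (hF : ∀ x y, F x y = F y x) : SimpleGraph (X × Bool) where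
  Adj p q := p.1 ≠ q.1 ∧ F p.1 q.1 = xor p.2 q.2
  symm := ⟨fun p q h => ⟨h.1.symm, by rw [hF, h.2, Bool.xor_comm]⟩⟩
  loopless := ⟨fun p h => h.1 rfl⟩

section
variable {X : Type} {F : X → X → Bool} {hF : ∀ x y, F x y = F y x}

theorem cover_edist
    (hC : ∀ x y, x ≠ y → ∃ z, z ≠ x ∧ z ≠ y ∧ xor (xor (F x y) (F x z)) (F y z) = true)
    (p q : X × Bool) :
    (cover F hF).edist p q = 2 ↔ p.1 ≠ q.1 ∧ F p.1 q.1 = ! (xor p.2 q.2) := by
  obtain ⟨x, e⟩ := p
  obtain ⟨y, d⟩ := q
  rw [SimpleGraph.edist_eq_two_iff]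
  simp only
  constructor
  · rintro ⟨h1, h2, ⟨⟨z, f⟩, h3, h4⟩⟩
    have h3' : x ≠ z ∧ F x z = xor e f := h3
    have h4' : y ≠ z ∧ F y z = xor d f := h4
    have h2' : ¬ (x ≠ y ∧ F x y = xor e d) := h2
    by_cases hxy : x = y
    · exfalso
      subst hxy
      have h5 : xor e f = xor d f := h3'.2.symm.trans h4'.2
      apply h1
      revert h5
      cases e <;> cases d <;> cases f <;> simp
    · refine ⟨hxy, ?_⟩
      have h6 : ¬ (F x y = xor e d) := fun h => h2' ⟨hxy, h⟩
      revert h6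
      generalize F x y = a
      cases a <;> cases e <;> cases d <;> simp
  · rintro ⟨h1, h2⟩
    refine ⟨fun h => h1 (congrArg Prod.fst h), fun h => ?_, ?_⟩
    · have h' : x ≠ y ∧ F x y = xor e d := h
      have := h'.2
      rw [h2] at this
      revert this
      cases e <;> cases d <;> simp
    · obtain ⟨z, hzx, hzy, hz⟩ := hC x y h1
      refine ⟨(z, xor e (F x z)), ?_, ?_⟩
      · show x ≠ z ∧ F x z = xor e (xor e (F x z))
        refine ⟨hzx.symm, ?_⟩
        cases e <;> cases F x z <;> rfl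
      · show y ≠ z ∧ F y z = xor d (xor e (F x z))
        refine ⟨hzy.symm, ?_⟩
        rw [h2] at hz
        revert hz
        cases e <;> cases d <;> cases F x z <;> cases F y z <;> simp

/-- The isomorphism. -/
def coverIso
    (hC : ∀ x y, x ≠ y → ∃ z, z ≠ x ∧ z ≠ y ∧ xor (xor (F x y) (F x z)) (F y z) = true)
    (π : Equiv.Perm X) (η : X → Bool)
    (hπ : ∀ x y, x ≠ y → F (π x) (π y) = ! (xor (xor (F x y) (η x)) (η y))) :
    twoDist (cover F hF) ≃g cover F hF where
  toFun p := (π p.1, xor p.2 (η p.1))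
  invFun p := (π.symm p.1, xor p.2 (η (π.symm p.1)))
  left_inv p := by
    obtain ⟨x, e⟩ := p
    simp only [Equiv.symm_apply_apply, Prod.mk.injEq, true_and]
    cases e <;> cases η x <;> rfl
  right_inv p := by
    obtain ⟨x, e⟩ := p
    simp only [Equiv.apply_symm_apply, Prod.mk.injEq, true_and]
    cases e <;> cases η (π.symm x) <;> rfl
  map_rel_iff' := by
    rintro ⟨x, e⟩ ⟨y, d⟩
    show (π x ≠ π y ∧ F (π x) (π y) = xor (xor e (η x)) (xor d (η y))) ↔
      (cover F hF).edist (x, e) (y, d) = 2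
    rw [cover_edist hC]
    simp only
    by_cases hxy : x = y
    · subst hxy; simp
    · rw [hπ x y hxy]
      have h1 : π x ≠ π y := fun h => hxy (π.injective h)
      simp only [ne_eq, h1, not_false_eq_true, true_and, hxy]
      generalize F x y = a
      generalize η x = b
      generalize η y = c
      cases a <;> cases b <;> cases c <;> cases e <;> cases d <;> simp

theorem cover_degree [Fintype X] (p : X × Bool) :
    ((cover F hF).neighborSet p).ncard = Fintype.card X - 1 := by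
  classical
  obtain ⟨x, e⟩ := p
  have h1 : (cover F hF).neighborSet (x, e) =
      (fun y => (y, xor e (F x y))) '' ((Finset.univ.erase x : Finset X) : Set X) := by
    ext ⟨y, d⟩
    constructor
    · intro h
      have h' : x ≠ y ∧ F x y = xor e d := h
      refine ⟨y, by simp [h'.1.symm], ?_⟩
      show (y, xor e (F x y)) = (y, d)
      rw [h'.2]
      cases e <;> cases d <;> rfl
    · rintro ⟨z, hz, hzy⟩
      simp only [Prod.mk.injEq] at hzy
      obtain ⟨rfl, rfl⟩ := hzy
      have hz' : z ≠ x := by simpa using hz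
      show x ≠ z ∧ F x z = xor e (xor e (F x z))
      refine ⟨hz'.symm, ?_⟩
      cases e <;> cases F x z <;> rfl
  rw [h1, Set.ncard_image_of_injective _ (fun a b hab => congrArg Prod.fst hab),
    Set.ncard_coe_finset, Finset.card_erase_of_mem (Finset.mem_univ x), Finset.card_univ]

theorem cover_connected [Nontrivial X]
    (hC : ∀ x y, x ≠ y → ∃ z, z ≠ x ∧ z ≠ y ∧ xor (xor (F x y) (F x z)) (F y z) = true) :
    (cover F hF).Connected := by
  have key : ∀ (x y : X) (e d : Bool), x ≠ y → (cover F hF).Reachable (x, e) (y, d) := by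
    intro x y e d hxy
    by_cases h : F x y = xor e d
    · exact SimpleGraph.Adj.reachable (show x ≠ y ∧ F x y = xor e d from ⟨hxy, h⟩)
    · have h2 : F x y = ! (xor e d) := by
        revert h
        cases F x y <;> cases e <;> cases d <;> simp
      have h3 := (cover_edist (hF := hF) hC (x, e) (y, d)).2 ⟨hxy, h2⟩
      apply SimpleGraph.reachable_of_edist_ne_top
      rw [h3]
      simp
  have hne : Nonempty (X × Bool) := by
    obtain ⟨x, -⟩ := exists_pair_ne X
    exact ⟨(x, true)⟩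
  refine ⟨fun p q => ?_⟩
  obtain ⟨x, e⟩ := p
  obtain ⟨y, d⟩ := q
  by_cases hxy : x = y
  · subst hxy
    obtain ⟨z, hz⟩ := exists_ne x
    exact (key x z e true hz.symm).trans (key z x true d hz)
  · exact key x y e d hxy

end

/-- parity of an element of `Fin 4` -/
def par (b : Fin 4) : Bool := decide (b.val % 2 = 1)

/-- non-adjacency in the path `1 - 0 - 2 - 3` -/
def p4 (b c : Fin 4) : Bool :=
  match b, c with
  | 1, 2 => true
  | 2, 1 => true
  | 1, 3 => true
  | 3, 1 => true
  | 0, 3 => true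
  | 3, 0 => true
  | _, _ => false

/-- the function of the first family -/
def F1 (s : ℕ) (x y : Fin 4 × Fin s) : Bool :=
  if x.2 < y.2 then par x.1 else if y.2 < x.2 then par y.1 else p4 x.1 y.1

theorem p4_symm : ∀ b c, p4 b c = p4 c b := by decide

theorem par_succ : ∀ b, par (b + 1) = ! par b := by decide

theorem p4_succ : ∀ b c, b ≠ c → p4 (b + 1) (c + 1) = ! p4 b c := by decide

theorem p4_inner : ∀ b c, b ≠ c → (b = 1 ∧ c = 3) ∨ (b = 3 ∧ c = 1) ∨
    ∃ z, z ≠ b ∧ z ≠ c ∧ xor (xor (p4 b c) (p4 b z)) (p4 c z) = true := by decide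

theorem p4_outer : ∀ b, ∃ z, z ≠ b ∧ xor (xor (par b) (p4 b z)) (par z) = true := by decide

theorem p4_true : ∀ b, par b = false → ∃ z, z ≠ b ∧ p4 b z = true := by decide

theorem F1_symm (s : ℕ) (x y : Fin 4 × Fin s) : F1 s x y = F1 s y x := by
  obtain ⟨b, i⟩ := x
  obtain ⟨c, j⟩ := y
  unfold F1
  simp only
  rcases lt_trichotomy i j with h | h | h
  · rw [if_pos h, if_neg (not_lt.2 h.le), if_pos h]
  · subst h
    simp [p4_symm b c]
  · rw [if_neg (not_lt.2 h.le), if_pos h, if_pos h]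

theorem F1_lt {s : ℕ} {i j : Fin s} (h : i < j) (b c : Fin 4) : F1 s (b, i) (c, j) = par b := by
  unfold F1; simp only; rw [if_pos h]

theorem F1_gt {s : ℕ} {i j : Fin s} (h : j < i) (b c : Fin 4) : F1 s (b, i) (c, j) = par c := by
  rw [F1_symm, F1_lt h]

theorem F1_eq {s : ℕ} (i : Fin s) (b c : Fin 4) : F1 s (b, i) (c, i) = p4 b c := by
  unfold F1; simp

/-- the rotation of the blocks -/
def rot (s : ℕ) : Equiv.Perm (Fin 4 × Fin s) := Equiv.prodCongr (Equiv.addRight 1) (Equiv.refl _)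

theorem rot_apply (s : ℕ) (b : Fin 4) (i : Fin s) : rot s (b, i) = (b + 1, i) := rfl

theorem F1_rot (s : ℕ) (x y : Fin 4 × Fin s) (h : x ≠ y) :
    F1 s (rot s x) (rot s y) = ! F1 s x y := by
  obtain ⟨b, i⟩ := x
  obtain ⟨c, j⟩ := y
  rw [rot_apply, rot_apply]
  rcases lt_trichotomy i j with hij | hij | hij
  · rw [F1_lt hij, F1_lt hij, par_succ]
  · subst hij
    rw [F1_eq, F1_eq]
    exact p4_succ b c (fun hbc => h (by rw [hbc]))
  · rw [F1_gt hij, F1_gt hij, par_succ]

/-- A third point for two points which are not the exceptional pair of a block. -/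
theorem F1_third (s : ℕ) (x y : Fin 4 × Fin s) (h : x ≠ y)
    (h13 : ¬ (x.2 = y.2 ∧ ((x.1 = 1 ∧ y.1 = 3) ∨ (x.1 = 3 ∧ y.1 = 1)))) :
    ∃ z, z ≠ x ∧ z ≠ y ∧ xor (xor (F1 s x y) (F1 s x z)) (F1 s y z) = true := by
  obtain ⟨b, i⟩ := x
  obtain ⟨c, j⟩ := y
  rcases lt_trichotomy i j with hij | hij | hij
  · obtain ⟨z, hz1, hz2⟩ := p4_outer b
    refine ⟨(z, i), ?_, ?_, ?_⟩
    · intro he; exact hz1 (congrArg Prod.fst he)
    · intro he; exact hij.ne (congrArg Prod.snd he)
    · rw [F1_lt hij, F1_eq, F1_gt hij]; exact hz2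
  · subst hij
    have hbc : b ≠ c := fun hbc => h (by rw [hbc])
    rcases p4_inner b c hbc with h1 | h1 | ⟨z, hz1, hz2, hz3⟩
    · exact absurd ⟨rfl, Or.inl h1⟩ h13
    · exact absurd ⟨rfl, Or.inr h1⟩ h13
    · refine ⟨(z, i), ?_, ?_, ?_⟩
      · intro he; exact hz1 (congrArg Prod.fst he)
      · intro he; exact hz2 (congrArg Prod.fst he)
      · rw [F1_eq, F1_eq, F1_eq]; exact hz3
  · obtain ⟨z, hz1, hz2⟩ := p4_outer c
    refine ⟨(z, j), ?_, ?_, ?_⟩
    · intro he; exact hij.ne (congrArg Prod.snd he)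
    · intro he; exact hz1 (congrArg Prod.fst he)
    · rw [F1_gt hij, F1_gt hij, F1_eq]
      revert hz2
      cases par c <;> cases par z <;> cases p4 c z <;> simp

theorem F1_C (s : ℕ) (hs : 2 ≤ s) (x y : Fin 4 × Fin s) (h : x ≠ y) :
    ∃ z, z ≠ x ∧ z ≠ y ∧ xor (xor (F1 s x y) (F1 s x z)) (F1 s y z) = true := by
  by_cases h13 : x.2 = y.2 ∧ ((x.1 = 1 ∧ y.1 = 3) ∨ (x.1 = 3 ∧ y.1 = 1))
  · obtain ⟨b, i⟩ := x
    obtain ⟨c, j⟩ := y
    simp only at h13
    obtain ⟨rfl, h13⟩ := h13
    have hnt : Nontrivial (Fin s) := Fin.nontrivial_iff_two_le.2 hs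
    obtain ⟨l, hl⟩ := exists_ne i
    refine ⟨(0, l), ?_, ?_, ?_⟩
    · intro he; exact hl (congrArg Prod.snd he)
    · intro he; exact hl (congrArg Prod.snd he)
    · rcases lt_or_gt_of_ne hl with hl' | hl'
      · rw [F1_eq, F1_gt hl', F1_gt hl']
        rcases h13 with ⟨rfl, rfl⟩ | ⟨rfl, rfl⟩ <;> decide
      · rw [F1_eq, F1_lt hl', F1_lt hl']
        rcases h13 with ⟨rfl, rfl⟩ | ⟨rfl, rfl⟩ <;> decide
  · exact F1_third s x y h h13

/-- the function of the second family: `inr false` is a point joined to the even points of the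
blocks, `inr true` is an isolated point -/
def F2 (s : ℕ) : (Fin 4 × Fin s) ⊕ Bool → (Fin 4 × Fin s) ⊕ Bool → Bool
  | Sum.inl x, Sum.inl y => F1 s x y
  | Sum.inl x, Sum.inr false => par x.1
  | Sum.inr false, Sum.inl x => par x.1
  | _, _ => true

theorem F2_symm (s : ℕ) (x y : (Fin 4 × Fin s) ⊕ Bool) : F2 s x y = F2 s y x := by
  rcases x with x | x | x <;> rcases y with y | y | y <;> try rfl
  exact F1_symm s x y

/-- the permutation of the second family -/
def rot2 (s : ℕ) : Equiv.Perm ((Fin 4 × Fin s) ⊕ Bool) := Equiv.sumCongr (rot s) (Equiv.refl _)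

/-- the switching function of the second family -/
def eta2 (s : ℕ) : (Fin 4 × Fin s) ⊕ Bool → Bool
  | Sum.inr true => true
  | _ => false

theorem F2_rot (s : ℕ) (x y : (Fin 4 × Fin s) ⊕ Bool) (h : x ≠ y) :
    F2 s (rot2 s x) (rot2 s y) = ! (xor (xor (F2 s x y) (eta2 s x)) (eta2 s y)) := by
  rcases x with x | x | x <;> rcases y with y | y | y
  · show F1 s (rot s x) (rot s y) = ! (xor (xor (F1 s x y) false) false)
    rw [F1_rot s x y (fun he => h (by rw [he]))]
    cases F1 s x y <;> rfl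
  · show par (x.1 + 1) = ! (xor (xor (par x.1) false) false)
    rw [par_succ]
    cases par x.1 <;> rfl
  · rfl
  · show par (y.1 + 1) = ! (xor (xor (par y.1) false) false)
    rw [par_succ]
    cases par y.1 <;> rfl
  · exact absurd rfl h
  · rfl
  · rfl
  · rfl
  · exact absurd rfl h

theorem F2_C (s : ℕ) (hs : 1 ≤ s) (x y : (Fin 4 × Fin s) ⊕ Bool) (h : x ≠ y) :
    ∃ z, z ≠ x ∧ z ≠ y ∧ xor (xor (F2 s x y) (F2 s x z)) (F2 s y z) = true := by
  have hc : ∀ x : Fin 4 × Fin s, ∃ z, z ≠ Sum.inl x ∧ z ≠ (Sum.inr false : (Fin 4 × Fin s) ⊕ Bool) ∧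
      xor (xor (par x.1) (F2 s (Sum.inl x) z)) (F2 s (Sum.inr false) z) = true := by
    rintro ⟨b, i⟩
    obtain ⟨z, hz1, hz2⟩ := p4_outer b
    refine ⟨Sum.inl (z, i), ?_, by simp, ?_⟩
    · intro he; exact hz1 (congrArg Prod.fst (Sum.inl.inj he))
    · show xor (xor (par b) (F1 s (b, i) (z, i))) (par z) = true
      rw [F1_eq]; exact hz2
  have hi : ∀ x : Fin 4 × Fin s, ∃ z, z ≠ Sum.inl x ∧ z ≠ (Sum.inr true : (Fin 4 × Fin s) ⊕ Bool) ∧
      xor (xor true (F2 s (Sum.inl x) z)) (F2 s (Sum.inr true) z) = true := by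
    rintro ⟨b, i⟩
    by_cases hb : par b = true
    · refine ⟨Sum.inr false, by simp, by simp, ?_⟩
      show xor (xor true (par b)) true = true
      rw [hb]; rfl
    · obtain ⟨z, hz1, hz2⟩ := p4_true b (by simpa using hb)
      refine ⟨Sum.inl (z, i), ?_, by simp, ?_⟩
      · intro he; exact hz1 (congrArg Prod.fst (Sum.inl.inj he))
      · show xor (xor true (F1 s (b, i) (z, i))) true = true
        rw [F1_eq, hz2]; rfl
  have hsw : ∀ a b c : Bool, xor (xor a b) c = xor (xor a c) b := by decide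
  rcases x with x | x | x <;> rcases y with y | y | y
  · have hxy : x ≠ y := fun he => h (by rw [he])
    by_cases h13 : x.2 = y.2 ∧ ((x.1 = 1 ∧ y.1 = 3) ∨ (x.1 = 3 ∧ y.1 = 1))
    · refine ⟨Sum.inr false, by simp, by simp, ?_⟩
      show xor (xor (F1 s x y) (par x.1)) (par y.1) = true
      obtain ⟨b, i⟩ := x
      obtain ⟨c, j⟩ := y
      simp only at h13
      obtain ⟨rfl, h13⟩ := h13
      rw [F1_eq]
      rcases h13 with ⟨rfl, rfl⟩ | ⟨rfl, rfl⟩
      · show xor (xor (p4 1 3) (par 1)) (par 3) = true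
        decide
      · show xor (xor (p4 3 1) (par 3)) (par 1) = true
        decide
    · obtain ⟨z, h1, h2, h3⟩ := F1_third s x y hxy h13
      refine ⟨Sum.inl z, ?_, ?_, h3⟩
      · intro he; exact h1 (Sum.inl.inj he)
      · intro he; exact h2 (Sum.inl.inj he)
  · obtain ⟨z, h1, h2, h3⟩ := hc x
    exact ⟨z, h1, h2, h3⟩
  · obtain ⟨z, h1, h2, h3⟩ := hi x
    exact ⟨z, h1, h2, h3⟩
  · obtain ⟨z, h1, h2, h3⟩ := hc y
    refine ⟨z, h2, h1, ?_⟩
    rw [hsw]; exact h3
  · exact absurd rfl h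
  · refine ⟨Sum.inl (1, ⟨0, hs⟩), by simp, by simp, ?_⟩
    show xor (xor true (par 1)) true = true
    decide
  · obtain ⟨z, h1, h2, h3⟩ := hi y
    refine ⟨z, h2, h1, ?_⟩
    rw [hsw]; exact h3
  · refine ⟨Sum.inl (1, ⟨0, hs⟩), by simp, by simp, ?_⟩
    show xor (xor true true) (par 1) = true
    decide
  · exact absurd rfl h

/-- For every odd `k ≥ 5` there is a finite connected `k`-regular graph which is isomorphic to its
2-distance graph. -/
theorem result : ∀ k : ℕ, Odd k → 5 ≤ k →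
    ∃ (V : Type) (_ : Fintype V) (G : SimpleGraph V), G.Connected ∧
      (∀ v, (G.neighborSet v).ncard = k) ∧ Nonempty (twoDist G ≃g G) := by
  intro k hk h5
  obtain ⟨t, ht⟩ := hk
  rcases Nat.even_or_odd' t with ⟨s, hs | hs⟩
  · -- `k = 4 s + 1`
    have hs1 : 1 ≤ s := by omega
    refine ⟨((Fin 4 × Fin s) ⊕ Bool) × Bool, inferInstance, cover (F2 s) (F2_symm s), ?_, ?_, ?_⟩
    · have : Nontrivial ((Fin 4 × Fin s) ⊕ Bool) := ⟨Sum.inr true, Sum.inr false, by simp⟩
      exact cover_connected (F2_C s hs1)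
    · intro v
      rw [cover_degree]
      simp only [Fintype.card_sum, Fintype.card_prod, Fintype.card_fin, Fintype.card_bool]
      omega
    · exact ⟨coverIso (F2_C s hs1) (rot2 s) (eta2 s) (F2_rot s)⟩
  · -- `k = 4 (s + 1) - 1`
    have hs1 : 2 ≤ s + 1 := by omega
    refine ⟨(Fin 4 × Fin (s + 1)) × Bool, inferInstance, cover (F1 (s + 1)) (F1_symm (s + 1)),
      ?_, ?_, ?_⟩
    · have : Nontrivial (Fin 4 × Fin (s + 1)) := ⟨(0, 0), (1, 0), by simp⟩
      exact cover_connected (F1_C (s + 1) hs1)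
    · intro v
      rw [cover_degree]
      simp only [Fintype.card_prod, Fintype.card_fin]
      omega
    · refine ⟨coverIso (F1_C (s + 1) hs1) (rot (s + 1)) (fun _ => false) ?_⟩
      intro x y hxy
      rw [F1_rot (s + 1) x y hxy]
      cases F1 (s + 1) x y <;> rfl

end Pool.Agent.Results.MP_325f40_co.OddSelfTwoDistance
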